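import Mathlib

set_option autoImplicit false

/-!
# Injective integer-valued harmonic functions on vertex-transitive graphs: a negative answer

For `m ≥ 5` let `G m` be the Cayley graph of the abelian group `ℤ × ℤ/m` with respect to the
finite generating set `{(1, j) : j ∈ ℤ/m} ∪ {(0, 1)}` (and inverses), i.e. the lexicographic product
of the two-way infinite path with the cycle of length `m`.  It is infinite, connected, locally
finite and vertex-transitive, and no two distinct vertices have the same open or the same closed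
neighbourhood.  Every harmonic function on it is constant on each of the `m`-element blocks
`{a} × ℤ/m`.
-/

namespace Pool.Agent.Results.MP_798444_co.NoInjective

open Finset SimpleGraph

/-- A graph is vertex-transitive if its automorphism group acts transitively on its vertices. -/
def VertexTransitive {V : Type*} (G : SimpleGraph V) : Prop :=
  ∀ u v : V, ∃ φ : G ≃g G, φ u = v

/-- `f` is harmonic on the locally finite graph `G`: at every vertex `v`, `deg v` times `f v` is the
sum of the values of `f` at the neighbours of `v`. -/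
def IsHarmonic {V R : Type*} [CommRing R] (G : SimpleGraph V) [G.LocallyFinite] (f : V → R) :
    Prop :=
  ∀ v : V, (G.degree v : R) * f v = ∑ u ∈ G.neighborFinset v, f u

/-- No two distinct vertices have the same open neighbourhood or the same closed neighbourhood. -/
def TwinFree {V : Type*} (G : SimpleGraph V) : Prop :=
  ∀ u v : V, u ≠ v → G.neighborSet u ≠ G.neighborSet v ∧
    insert u (G.neighborSet u) ≠ insert v (G.neighborSet v)

/-- The connection set. -/
def conn (m : ℕ) [NeZero m] : Finset (ℤ × ZMod m) :=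
  insert (0, 1) ((Finset.univ : Finset (ZMod m)).image (fun j => ((1 : ℤ), j)))

lemma mem_conn {m : ℕ} [NeZero m] (g : ℤ × ZMod m) :
    g ∈ conn m ↔ g = (0, 1) ∨ g.1 = 1 := by
  simp only [conn, mem_insert, mem_image, mem_univ, true_and]
  constructor
  · rintro (h | ⟨j, rfl⟩)
    · exact Or.inl h
    · exact Or.inr rfl
  · rintro (h | h)
    · exact Or.inl h
    · exact Or.inr ⟨g.2, by ext <;> simp [h]⟩

lemma one_ne_zero' {m : ℕ} (hm : 5 ≤ m) : (1 : ZMod m) ≠ 0 := by
  have : Fact (1 < m) := ⟨by omega⟩
  exact one_ne_zero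

lemma cast_ne_zero {m : ℕ} (n : ℕ) (h0 : 0 < n) (hn : n < m) : (n : ZMod m) ≠ 0 := by
  intro h
  rw [ZMod.natCast_eq_zero_iff] at h
  exact absurd (Nat.le_of_dvd h0 h) (by omega)

lemma adj_iff {m : ℕ} [NeZero m] (hm : 5 ≤ m) (u v : ℤ × ZMod m) :
    (addCayley (conn m : Set (ℤ × ZMod m))).Adj u v ↔
      (v.1 = u.1 + 1 ∨ v.1 = u.1 - 1) ∨ (v.1 = u.1 ∧ (v.2 = u.2 + 1 ∨ v.2 = u.2 - 1)) := by
  rw [addCayley_adj']
  simp only [Finset.mem_coe, mem_conn]
  have h1 := one_ne_zero' hm
  obtain ⟨a, i⟩ := u
  obtain ⟨b, j⟩ := v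
  constructor
  · rintro ⟨hne, g, hg, h⟩
    obtain ⟨c, k⟩ := g
    simp only [Prod.mk_add_mk, Prod.mk.injEq] at h hg ⊢
    rcases hg with ⟨rfl, rfl⟩ | rfl
    · rcases h with ⟨h, h'⟩ | ⟨h, h'⟩
      · right; refine ⟨by omega, Or.inl h'.symm⟩
      · right; refine ⟨by omega, Or.inr ?_⟩
        rw [h']; ring
    · rcases h with ⟨h, h'⟩ | ⟨h, h'⟩
      · left; left; omega
      · left; right; omega
  · simp only
    rintro ((h | h) | ⟨h, h' | h'⟩)
    · refine ⟨fun e => by simp only [Prod.mk.injEq] at e; omega, (1, j - i), Or.inr rfl, Or.inl ?_⟩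
      ext <;> simp [h]
    · refine ⟨fun e => by simp only [Prod.mk.injEq] at e; omega, (1, i - j), Or.inr rfl, Or.inr ?_⟩
      ext <;> simp [h]
    · refine ⟨fun e => ?_, (0, 1), Or.inl rfl, Or.inl ?_⟩
      · simp only [Prod.mk.injEq] at e
        exact h1 (by simpa using (e.2.trans h'))
      · ext <;> simp [h, h']
    · refine ⟨fun e => ?_, (0, 1), Or.inl rfl, Or.inr ?_⟩
      · simp only [Prod.mk.injEq] at e
        have h2 := e.2.trans h'
        exact h1 (by linear_combination h2)
      · ext <;> simp [h, h']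

/-- The neighbourhood of a vertex as an explicit finset. -/
def nbr (m : ℕ) [NeZero m] (v : ℤ × ZMod m) : Finset (ℤ × ZMod m) :=
  ((Finset.univ : Finset (ZMod m)).image (fun j => (v.1 + 1, j))) ∪
    (((Finset.univ : Finset (ZMod m)).image (fun j => (v.1 - 1, j))) ∪
      {(v.1, v.2 + 1), (v.1, v.2 - 1)})

lemma mem_nbr {m : ℕ} [NeZero m] (v u : ℤ × ZMod m) : u ∈ nbr m v ↔
      (u.1 = v.1 + 1 ∨ u.1 = v.1 - 1) ∨ (u.1 = v.1 ∧ (u.2 = v.2 + 1 ∨ u.2 = v.2 - 1)) := by
  obtain ⟨a, i⟩ := u
  obtain ⟨b, j⟩ := v
  simp only [nbr, mem_union, mem_image, mem_univ, true_and, mem_insert, mem_singleton,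
    Prod.mk.injEq]
  constructor
  · rintro (⟨_, h, _⟩ | ⟨_, h, _⟩ | ⟨h, h'⟩ | ⟨h, h'⟩)
    · exact Or.inl (Or.inl h.symm)
    · exact Or.inl (Or.inr h.symm)
    · exact Or.inr ⟨h, Or.inl h'⟩
    · exact Or.inr ⟨h, Or.inr h'⟩
  · rintro ((h | h) | ⟨h, h' | h'⟩)
    · exact Or.inl ⟨i, h.symm, rfl⟩
    · exact Or.inr (Or.inl ⟨i, h.symm, rfl⟩)
    · exact Or.inr (Or.inr (Or.inl ⟨h, h'⟩))
    · exact Or.inr (Or.inr (Or.inr ⟨h, h'⟩))

lemma two_ne {m : ℕ} (hm : 5 ≤ m) (i : ZMod m) : i + 1 ≠ i - 1 := by
  intro h
  have h2 : ((2 : ℕ) : ZMod m) = 0 := by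
    have : (i + 1) - (i - 1) = (0 : ZMod m) := by rw [h]; ring
    have h3 : (i + 1) - (i - 1) = (2 : ZMod m) := by ring
    rw [h3] at this
    exact_mod_cast this
  exact cast_ne_zero 2 (by norm_num) (by omega) h2

lemma sum_nbr {m : ℕ} [NeZero m] (hm : 5 ≤ m) {M : Type*} [AddCommMonoid M]
    (f : ℤ × ZMod m → M) (a : ℤ) (i : ZMod m) :
    ∑ u ∈ nbr m (a, i), f u = (∑ j, f (a + 1, j)) + ((∑ j, f (a - 1, j)) +
      (f (a, i + 1) + f (a, i - 1))) := by
  unfold nbr
  rw [sum_union, sum_union, sum_image, sum_image, sum_pair]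
  · intro h
    simp only [Prod.mk.injEq, true_and] at h
    exact two_ne hm i h
  · intro x _ y _ h
    simpa using h
  · intro x _ y _ h
    simpa using h
  · rw [Finset.disjoint_left]
    rintro ⟨b, j⟩ h1 h2
    simp only [mem_image, mem_univ, true_and, mem_insert, mem_singleton, Prod.mk.injEq] at h1 h2
    obtain ⟨_, h1, _⟩ := h1
    rcases h2 with h2 | h2 <;> omega
  · rw [Finset.disjoint_left]
    rintro ⟨b, j⟩ h1 h2
    simp only [mem_image, mem_univ, true_and, mem_insert, mem_singleton, Prod.mk.injEq,
      mem_union] at h1 h2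
    obtain ⟨_, h1, _⟩ := h1
    rcases h2 with ⟨_, h2, _⟩ | h2 | h2 <;> omega

/-- The graph is locally finite. -/
noncomputable def locFin (m : ℕ) [NeZero m] (hm : 5 ≤ m) :
    (addCayley (conn m : Set (ℤ × ZMod m))).LocallyFinite := fun v =>
  Fintype.ofFinset (nbr m v) (fun u => by rw [mem_nbr, mem_neighborSet, adj_iff hm])

lemma nbrFinset_eq {m : ℕ} [NeZero m] (hm : 5 ≤ m)
    [(addCayley (conn m : Set (ℤ × ZMod m))).LocallyFinite] (v : ℤ × ZMod m) :
    (addCayley (conn m : Set (ℤ × ZMod m))).neighborFinset v = nbr m v := by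
  ext u
  rw [mem_neighborFinset, adj_iff hm, mem_nbr]

lemma degree_eq {m : ℕ} [NeZero m] (hm : 5 ≤ m)
    [(addCayley (conn m : Set (ℤ × ZMod m))).LocallyFinite] (v : ℤ × ZMod m) :
    (addCayley (conn m : Set (ℤ × ZMod m))).degree v = 2 * m + 2 := by
  rw [← card_neighborFinset_eq_degree, nbrFinset_eq hm, card_eq_sum_ones]
  obtain ⟨a, i⟩ := v
  rw [sum_nbr hm]
  simp [ZMod.card]
  ring

lemma harmonic_const {m : ℕ} [NeZero m] (hm : 5 ≤ m)
    [(addCayley (conn m : Set (ℤ × ZMod m))).LocallyFinite]
    {R : Type*} [CommRing R] [LinearOrder R] [IsStrictOrderedRing R]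
    (f : ℤ × ZMod m → R) (hf : IsHarmonic (addCayley (conn m : Set (ℤ × ZMod m))) f)
    (a : ℤ) (i j : ZMod m) : f (a, i) = f (a, j) := by
  have key : ∀ k : ZMod m, (2 * (m : R) + 2) * f (a, k) =
      (∑ j, f (a + 1, j)) + ((∑ j, f (a - 1, j)) + (f (a, k + 1) + f (a, k - 1))) := by
    intro k
    have h := hf (a, k)
    rw [nbrFinset_eq hm, degree_eq hm, sum_nbr hm] at h
    rw [← h]
    push_cast
    ring
  obtain ⟨p, -, hp⟩ := Finset.exists_max_image (Finset.univ : Finset (ZMod m))
    (fun k => f (a, k)) ⟨0, mem_univ _⟩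
  obtain ⟨q, -, hq⟩ := Finset.exists_min_image (Finset.univ : Finset (ZMod m))
    (fun k => f (a, k)) ⟨0, mem_univ _⟩
  simp only [mem_univ, forall_true_left] at hp hq
  have kp := key p
  have kq := key q
  have h1 := hp (p + 1)
  have h2 := hp (p - 1)
  have h3 := hq (q + 1)
  have h4 := hq (q - 1)
  have hmR : (0 : R) < m := by
    have : 0 < m := by omega
    exact_mod_cast this
  have h5 : 2 * (m : R) * f (a, p) ≤ 2 * (m : R) * f (a, q) := by linarith
  have h6 : f (a, p) ≤ f (a, q) := le_of_mul_le_mul_left h5 (by positivity)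
  have e : ∀ k, f (a, k) = f (a, q) := fun k => le_antisymm ((hp k).trans h6) (hq k)
  rw [e i, e j]

lemma vertexTransitive_addCayley {A : Type*} [AddCommGroup A] (S : Set A) :
    VertexTransitive (addCayley S) := by
  intro u v
  refine ⟨⟨Equiv.addLeft (v - u), ?_⟩, ?_⟩
  · intro x y
    simp only [Equiv.coe_addLeft, addCayley_adj_add_iff_right]
  · simp

lemma connected {m : ℕ} [NeZero m] (hm : 5 ≤ m) :
    (addCayley (conn m : Set (ℤ × ZMod m))).Connected := by
  have step : ∀ (a : ℤ) (i j : ZMod m),
      (addCayley (conn m : Set (ℤ × ZMod m))).Adj (a, i) (a + 1, j) := by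
    intro a i j
    rw [adj_iff hm]
    simp
  have r0 : ∀ (n : ℕ) (i : ZMod m),
      (addCayley (conn m : Set (ℤ × ZMod m))).Reachable (0, 0) (((n : ℤ) + 1), i) := by
    intro n
    induction n with
    | zero => intro i; simpa using (step 0 0 i).reachable
    | succ n ih =>
      intro i
      have := step ((n : ℤ) + 1) 0 i
      refine (ih 0).trans ?_
      push_cast
      exact this.reachable
  have r1 : ∀ (n : ℕ) (i : ZMod m),
      (addCayley (conn m : Set (ℤ × ZMod m))).Reachable (0, 0) ((-(n : ℤ)), i) := by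
    intro n
    induction n with
    | zero =>
      intro i
      have h1 := (step 0 0 0).reachable
      have h2 := (step 0 i 0).reachable
      simpa using h1.trans h2.symm
    | succ n ih =>
      intro i
      have := (step (-((n : ℤ) + 1)) i 0).reachable
      have e : -((n : ℤ) + 1) + 1 = -(n : ℤ) := by ring
      rw [e] at this
      push_cast
      exact (ih 0).trans this.symm
  rw [connected_iff_exists_forall_reachable]
  refine ⟨(0, 0), ?_⟩
  rintro ⟨a, i⟩
  rcases le_or_gt a 0 with h | h
  · obtain ⟨n, hn⟩ := Int.eq_ofNat_of_zero_le (a := -a) (by omega)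
    have : a = -(n : ℤ) := by omega
    rw [this]; exact r1 n i
  · obtain ⟨n, hn⟩ := Int.eq_ofNat_of_zero_le (a := a - 1) (by omega)
    have : a = (n : ℤ) + 1 := by omega
    rw [this]; exact r0 n i

lemma twinFree {m : ℕ} [NeZero m] (hm : 5 ≤ m) :
    TwinFree (addCayley (conn m : Set (ℤ × ZMod m))) := by
  have h1 := one_ne_zero' hm
  have n2 : ((2 : ℕ) : ZMod m) ≠ 0 := cast_ne_zero 2 (by norm_num) (by omega)
  have n3 : ((3 : ℕ) : ZMod m) ≠ 0 := cast_ne_zero 3 (by norm_num) (by omega)
  have n4 : ((4 : ℕ) : ZMod m) ≠ 0 := cast_ne_zero 4 (by norm_num) (by omega)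
  push_cast at n2 n3 n4
  rintro ⟨a, i⟩ ⟨b, j⟩ hne
  constructor
  · intro h
    have mem : ∀ w : ℤ × ZMod m, (addCayley (conn m : Set (ℤ × ZMod m))).Adj (a, i) w ↔
        (addCayley (conn m : Set (ℤ × ZMod m))).Adj (b, j) w := fun w => by
      have := Set.ext_iff.1 h w
      simpa [mem_neighborSet] using this
    have hA := mem (a + 1, i)
    have hB := mem (a - 1, i)
    rw [adj_iff hm, adj_iff hm] at hA hB
    simp only [true_or, or_true, true_iff] at hA hB
    have hab : a = b := by
      rcases hA with (h | h) | h <;> rcases hB with (h' | h') | h' <;> try omega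
    subst hab
    have hC := mem (a, i + 1)
    have hD := mem (a, i - 1)
    rw [adj_iff hm, adj_iff hm] at hC hD
    simp only [true_and, true_or, or_true, true_iff] at hC hD
    have hC' : i + 1 = j + 1 ∨ i + 1 = j - 1 := by
      rcases hC with (h | h) | h
      · omega
      · omega
      · exact h
    have hD' : i - 1 = j + 1 ∨ i - 1 = j - 1 := by
      rcases hD with (h | h) | h
      · omega
      · omega
      · exact h
    rcases hC' with h | h
    · exact hne (by rw [add_right_cancel h])
    · rcases hD' with h' | h'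
      · apply n4
        have : (i + 1) - (i - 1) = (j - 1) - (j + 1) := by rw [h, h']
        linear_combination this
      · exact hne (by rw [sub_left_injective h'])
  · intro h
    have mem : ∀ w : ℤ × ZMod m,
        (w = (a, i) ∨ (addCayley (conn m : Set (ℤ × ZMod m))).Adj (a, i) w) ↔
        (w = (b, j) ∨ (addCayley (conn m : Set (ℤ × ZMod m))).Adj (b, j) w) := fun w => by
      have := Set.ext_iff.1 h w
      simpa [mem_neighborSet] using this
    have hA := mem (a + 1, i)
    have hB := mem (a - 1, i)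
    rw [adj_iff hm, adj_iff hm] at hA hB
    simp only [true_or, or_true, true_iff, Prod.mk.injEq] at hA hB
    have hab : a = b := by
      rcases hA with h | (h | h) | h <;> rcases hB with h' | (h' | h') | h' <;> try omega
    subst hab
    have hC := mem (a, i + 1)
    have hD := mem (a, i - 1)
    rw [adj_iff hm, adj_iff hm] at hC hD
    simp only [true_and, true_or, or_true, true_iff, Prod.mk.injEq] at hC hD
    have hC' : i + 1 = j ∨ i + 1 = j + 1 ∨ i + 1 = j - 1 := by
      rcases hC with h | (h | h) | h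
      · exact Or.inl h
      · omega
      · omega
      · exact Or.inr h
    have hD' : i - 1 = j ∨ i - 1 = j + 1 ∨ i - 1 = j - 1 := by
      rcases hD with h | (h | h) | h
      · exact Or.inl h
      · omega
      · omega
      · exact Or.inr h
    rcases hC' with h | h | h
    · rcases hD' with h' | h' | h'
      · apply n2
        have : (i + 1) - (i - 1) = j - j := by rw [h, h']
        linear_combination this
      · apply n3
        have : (i + 1) - (i - 1) = j - (j + 1) := by rw [h, h']
        linear_combination this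
      · exact hne (by rw [sub_left_injective h'])
    · exact hne (by rw [add_right_cancel h])
    · rcases hD' with h' | h' | h'
      · apply n3
        have : (i + 1) - (i - 1) = (j - 1) - j := by rw [h, h']
        linear_combination this
      · apply n4
        have : (i + 1) - (i - 1) = (j - 1) - (j + 1) := by rw [h, h']
        linear_combination this
      · exact hne (by rw [sub_left_injective h'])

/-- **Negative answer.**  For every `k` there are `m ≥ 5` and a finite set `S ⊆ ℤ × ℤ/m` whose Cayley
graph is infinite, connected, locally finite, vertex-transitive and without twins, such that every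
harmonic function on it, with values in any linearly ordered commutative ring (in
particular in `ℤ` or in `ℝ`), takes each of its values at `k` or more distinct vertices, and such that no
harmonic function to `ℤ` is injective. -/
theorem result (k : ℕ) :
    ∃ (m : ℕ) (S : Finset (ℤ × ZMod m))
      (_ : (addCayley (S : Set (ℤ × ZMod m))).LocallyFinite),
      Infinite (ℤ × ZMod m) ∧
      (addCayley (S : Set (ℤ × ZMod m))).Connected ∧
      VertexTransitive (addCayley (S : Set (ℤ × ZMod m))) ∧
      TwinFree (addCayley (S : Set (ℤ × ZMod m))) ∧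
      (∀ (R : Type) [CommRing R] [LinearOrder R] [IsStrictOrderedRing R] (f : ℤ × ZMod m → R),
        IsHarmonic (addCayley (S : Set (ℤ × ZMod m))) f →
          ∀ v : ℤ × ZMod m, ∃ s : Finset (ℤ × ZMod m), k ≤ s.card ∧ ∀ u ∈ s, f u = f v) ∧
      (∀ f : ℤ × ZMod m → ℤ, IsHarmonic (addCayley (S : Set (ℤ × ZMod m))) f →
        ¬ Function.Injective f) := by
  have hm : 5 ≤ k + 5 := by omega
  have : NeZero (k + 5) := ⟨by omega⟩
  refine ⟨k + 5, conn (k + 5), locFin (k + 5) hm, inferInstance, connected hm,
    vertexTransitive_addCayley _, twinFree hm, ?_, ?_⟩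
  · intro R _ _ _ f hf v
    refine ⟨(Finset.univ : Finset (ZMod (k + 5))).image (fun j => (v.1, j)), ?_, ?_⟩
    · rw [card_image_of_injective _ (fun x y h => by simpa using h), card_univ, ZMod.card]
      omega
    · intro u hu
      simp only [mem_image, mem_univ, true_and] at hu
      obtain ⟨j, rfl⟩ := hu
      let _ := locFin (k + 5) hm
      exact harmonic_const hm f hf v.1 j v.2
  · intro f hf hinj
    let _ := locFin (k + 5) hm
    have h := hinj (harmonic_const hm f hf 0 0 1)
    simp only [Prod.mk.injEq, true_and] at h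
    exact one_ne_zero' hm h.symm

end Pool.Agent.Results.MP_798444_co.NoInjective
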